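import Pool.Agent.W102.GI.Defs

/-! # Project GI, part ZF -/

set_option autoImplicit false

namespace Pool.Agent.W701.GI

open Finset Pool.Agent.W102.GI

theorem ZF (h1 : ZY) (h2 : YMAP) (h3 : YINJ) (h4 : YSURJ) (h5 : WC) (h6 : CNT) :
    Pool.Agent.W102.GI.ZF := by
  intro n r
  have e1 : ∑ w ∈ invs n, Nat.choose (r + n - des w) n =
      ∑ w ∈ invs n, (Finset.univ.filter (fun l : Fin n → Fin (r + 1) => Compat w l)).card :=
    Finset.sum_congr rfl fun w _ => (h6 n r w).symm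
  have e2 : {N : Fin (2 * r + 1) → Fin (2 * r + 1) → ℕ | IsW n r N} =
      (fun p => mat p) '' ((Y n r : Finset _) : Set
        (Equiv.Perm (Fin (2 * n)) × (Fin (2 * n) → Fin (2 * r + 1)))) := by
    ext N
    constructor
    · intro hN
      obtain ⟨p, hp, hpN⟩ := h4 n r N hN
      exact ⟨p, Finset.mem_coe.mpr hp, hpN⟩
    · rintro ⟨p, hp, rfl⟩
      exact h2 n r p (Finset.mem_coe.mp hp)
  have e3 : Set.InjOn (fun p => mat p) ((Y n r : Finset _) : Set
        (Equiv.Perm (Fin (2 * n)) × (Fin (2 * n) → Fin (2 * r + 1)))) := by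
    intro p hp p' hp' he
    exact h3 n r p (Finset.mem_coe.mp hp) p' (Finset.mem_coe.mp hp') he
  rw [e1, h1 n r, ← h5 n r, e2, Set.InjOn.ncard_image e3, Set.ncard_coe_finset]

end Pool.Agent.W701.GI
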